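import Pool.Agent.Helper85.ProC.Goals3

/-! Packet QUO (MP_ac806c_lc): passing to the quotient by a closed normal subgroup.  helper31. -/

set_option autoImplicit false

namespace Pool.Agent.Helper31.ProC

open Pool.Agent.Helper85.ProP Pool.Agent.Helper85.ProC Pool.Agent.Helper30.ProP

universe u

theorem totallyDisconnected_quotient {G : Type u} [Group G] [TopologicalSpace G]
    [IsTopologicalGroup G] [CompactSpace G] [TotallyDisconnectedSpace G] (N : Subgroup G)
    [N.Normal] (hN : IsClosed (N : Set G)) : TotallyDisconnectedSpace (G ⧸ N) := by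
  rw [totallyDisconnectedSpace_iff_connectedComponent_one]
  refine Set.eq_singleton_iff_unique_mem.mpr ⟨mem_connectedComponent, ?_⟩
  intro y hy
  obtain ⟨x, rfl⟩ := QuotientGroup.mk'_surjective N y
  by_contra hne
  have hx : x ∉ N := by
    intro hx
    exact hne ((QuotientGroup.eq_one_iff x).mpr hx)
  have h := ProfiniteGrp.closedSubgroup_eq_sInf_open (G := G) ⟨N, hN⟩
  have hx' : x ∉ sInf {M : Subgroup G | IsOpen (M : Set G) ∧ N ≤ M} := by
    intro hm
    apply hx
    have h' : (N : Subgroup G) = sInf {M : Subgroup G | IsOpen (M : Set G) ∧ N ≤ M} := h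
    rw [h']
    exact hm
  rw [Subgroup.mem_sInf] at hx'
  push Not at hx'
  obtain ⟨O, ⟨hO, hNO⟩, hxO⟩ := hx'
  set O' : Subgroup (G ⧸ N) := O.map (QuotientGroup.mk' N) with hO'
  have hopen : IsOpen (O' : Set (G ⧸ N)) := by
    rw [hO', Subgroup.coe_map]
    exact QuotientGroup.isOpenMap_coe _ hO
  have hclosed : IsClosed (O' : Set (G ⧸ N)) := Subgroup.isClosed_of_isOpen O' hopen
  have hsub := IsClopen.connectedComponent_subset ⟨hclosed, hopen⟩ (one_mem O' : (1 : G ⧸ N) ∈ O')
  have hmem : QuotientGroup.mk' N x ∈ O' := hsub hy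
  obtain ⟨z, hz, hzx⟩ := hmem
  have : z⁻¹ * x ∈ N := by
    rw [← QuotientGroup.eq]
    exact hzx
  apply hxO
  have h2 : x = z * (z⁻¹ * x) := by group
  rw [h2]
  exact O.mul_mem hz (hNO this)

theorem stmtQuo : StmtQuo.{u} := by
  intro p _ G _ _ _ _ _ _ N _ hN hPP hSer
  have : IsClosed (N : Set G) := hN
  have hT3 : T3Space (G ⧸ N) := inferInstance
  have hT2 : T2Space (G ⧸ N) := inferInstance
  refine ⟨hT2, totallyDisconnected_quotient N hN, ?_, ?_⟩
  · intro U hU hUo
    have hsurj := QuotientGroup.mk'_surjective N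
    have hcomapN : (U.comap (QuotientGroup.mk' N)).Normal := hU.comap _
    have hcomapO : IsOpen ((U.comap (QuotientGroup.mk' N) : Subgroup G) : Set G) := by
      rw [Subgroup.coe_comap]
      exact hUo.preimage QuotientGroup.continuous_mk
    obtain ⟨n, hn⟩ := hPP _ hcomapN hcomapO
    exact ⟨n, by rw [← hn, Subgroup.index_comap_of_surjective U hsurj]⟩
  · classical
    obtain ⟨k, Hs, h0, hk, hnc, hstep⟩ := hSer
    have hsurj := QuotientGroup.mk'_surjective N
    refine ⟨k, fun i => (Hs i).map (QuotientGroup.mk' N), ?_, ?_, ?_, ?_⟩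
    · show (Hs 0).map (QuotientGroup.mk' N) = ⊥
      rw [h0, eq_bot_iff]
      rintro _ ⟨x, hx, rfl⟩
      exact Subgroup.mem_bot.mpr ((QuotientGroup.eq_one_iff x).mpr hx)
    · show (Hs k).map (QuotientGroup.mk' N) = ⊤
      rw [hk]
      exact Subgroup.map_top_of_surjective _ hsurj
    · intro i
      refine ⟨(hnc i).1.map _ hsurj, ?_⟩
      show IsClosed (((Hs i).map (QuotientGroup.mk' N) : Subgroup (G ⧸ N)) : Set (G ⧸ N))
      rw [Subgroup.coe_map]
      have hcomp : IsCompact (Hs i : Set G) := (hnc i).2.isCompact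
      exact (hcomp.image QuotientGroup.continuous_mk).isClosed
    · intro i hi
      obtain ⟨hle, hab, F, hFL, hF⟩ := hstep i hi
      refine ⟨Subgroup.map_mono hle, ?_, ?_⟩
      · rintro _ ⟨a, ha, rfl⟩ _ ⟨b, hb, rfl⟩
        exact ⟨cm a b, hab a ha b hb, by simp [cm]⟩
      · refine ⟨F.image (QuotientGroup.mk' N), ?_, ?_⟩
        · rw [Finset.coe_image, Subgroup.coe_map]
          exact Set.image_mono hFL
        · intro H hH hKH hFH
          rw [Subgroup.map_le_iff_le_comap] at hKH ⊢
          refine hF (H.comap (QuotientGroup.mk' N)) ?_ hKH ?_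
          · rw [Subgroup.coe_comap]
            exact hH.preimage QuotientGroup.continuous_mk
          · rw [Finset.coe_image, Set.image_subset_iff] at hFH
            exact hFH

end Pool.Agent.Helper31.ProC
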